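import Pool.Agent.H15.IX.TB

/-!
Module IDX: arithmetic of the index function.
-/

set_option autoImplicit false

open Finset Pool.Agent.H15.IX

namespace Pool.Agent.H47.IX


/-- the difference -/
def dl (q : ℕ → ℤ) (x : ℕ) : ℤ := q (x + 1) - q x

theorem dl_sum (q : ℕ → ℤ) (n x : ℕ) :
    dl^[n] q x = (-1) ^ n * ∑ i ∈ range (n + 1), (-1 : ℤ) ^ i * (n.choose i : ℤ) * q (x + i) := by
  have h : dl = fwdDiff 1 := rfl
  rw [h, fwdDiff_iter_eq_sum_shift, Finset.mul_sum]
  refine Finset.sum_congr rfl fun i hi => ?_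
  have hi' : i ≤ n := by
    have := Finset.mem_range.1 hi
    omega
  obtain ⟨j, rfl⟩ := Nat.exists_eq_add_of_le hi'
  rw [smul_eq_mul, smul_eq_mul, mul_one, Nat.add_sub_cancel_left, pow_add]
  have h2 : (-1 : ℤ) ^ i * (-1) ^ i = 1 := by
    rw [← mul_pow]
    norm_num
  calc (-1 : ℤ) ^ j * ((i + j).choose i : ℤ) * q (x + i)
      = ((-1 : ℤ) ^ i * (-1) ^ i) * ((-1 : ℤ) ^ j * ((i + j).choose i : ℤ) * q (x + i)) := by
        rw [h2, one_mul]
    _ = _ := by ring

theorem dl_const (p : ℕ) (hp : 1 ≤ p) : ∀ (m : ℕ) (q : ℕ → ℤ) (L : ℕ), p + m ≤ L →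
    (∀ x, x + m ≤ L → dl^[m] q x = 0) → (∀ x, x + p ≤ L → q (x + p) = q x) →
    ∀ x, x ≤ L → q x = q 0 := by
  intro m
  induction m with
  | zero =>
    intro q L h1 h2 h3 x hx
    have e1 := h2 x (by omega)
    have e2 := h2 0 (by omega)
    rw [Function.iterate_zero_apply] at e1 e2
    rw [e1, e2]
  | succ m ih =>
    intro q L h1 h2 h3
    have h4 := ih (dl q) (L - 1) (by omega) (fun x hx => by
      have := h2 x (by omega)
      rwa [Function.iterate_succ_apply] at this) (fun x hx => by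
      unfold dl
      have e1 := h3 (x + 1) (by omega)
      have e2 := h3 x (by omega)
      have e3 : x + p + 1 = x + 1 + p := by omega
      rw [e3, e1, e2])
    have h5 : ∀ i : ℕ, i ≤ L → q i = q 0 + i * dl q 0 := by
      intro i
      induction i with
      | zero =>
        intro _
        simp
      | succ i ihi =>
        intro hi
        have e1 := ihi (by omega)
        have e2 := h4 i (by omega)
        have e3 : dl q i = q (i + 1) - q i := rfl
        push_cast
        linarith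
    have h6 := h5 p (by omega)
    have h7 := h3 0 (by omega)
    rw [zero_add] at h7
    have h8 : (p : ℤ) * dl q 0 = 0 := by linarith
    have h9 : dl q 0 = 0 := by
      rcases mul_eq_zero.1 h8 with h | h
      · exfalso
        have h10 : p = 0 := by exact_mod_cast h
        omega
      · exact h
    intro x hx
    rw [h5 x hx, h9]
    ring

/-- the difference in the first variable -/
def D1 : (ℕ → ℕ → ℤ) →ₗ[ℤ] (ℕ → ℕ → ℤ) where
  toFun F j k := F (j + 1) k - F j k
  map_add' F G := by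
    funext j k
    simp only [Pi.add_apply]
    ring
  map_smul' c F := by
    funext j k
    simp only [Pi.smul_apply, smul_eq_mul, RingHom.id_apply]
    ring

/-- the difference in the second variable -/
def D2 : (ℕ → ℕ → ℤ) →ₗ[ℤ] (ℕ → ℕ → ℤ) where
  toFun F j k := F j (k + 1) - F j k
  map_add' F G := by
    funext j k
    simp only [Pi.add_apply]
    ring
  map_smul' c F := by
    funext j k
    simp only [Pi.smul_apply, smul_eq_mul, RingHom.id_apply]
    ring

theorem D1_apply (F : ℕ → ℕ → ℤ) (j k : ℕ) : D1 F j k = F (j + 1) k - F j k := rfl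

theorem D2_apply (F : ℕ → ℕ → ℤ) (j k : ℕ) : D2 F j k = F j (k + 1) - F j k := rfl

theorem D_comm : Commute D2 D1 := by
  refine LinearMap.ext fun F => ?_
  funext j k
  rw [Module.End.mul_apply, Module.End.mul_apply]
  simp only [D1_apply, D2_apply]
  ring

theorem D1_pow (n : ℕ) (F : ℕ → ℕ → ℤ) (j k : ℕ) :
    (D1 ^ n) F j k = dl^[n] (fun j => F j k) j := by
  induction n generalizing j with
  | zero => rfl
  | succ n ih =>
    rw [pow_succ', Module.End.mul_apply, D1_apply, ih, ih, Function.iterate_succ_apply']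
    rfl

theorem D2_pow (n : ℕ) (F : ℕ → ℕ → ℤ) (j k : ℕ) :
    (D2 ^ n) F j k = dl^[n] (fun k => F j k) k := by
  induction n generalizing k with
  | zero => rfl
  | succ n ih =>
    rw [pow_succ', Module.End.mul_apply, D2_apply, ih, ih, Function.iterate_succ_apply']
    rfl

theorem D_diag (m N : ℕ) (F : ℕ → ℕ → ℤ) (x : ℕ) (hx : x + m ≤ N) :
    dl^[m] (fun x => F (N - x) x) x = ((D2 - D1) ^ m) F (N - m - x) x := by
  induction m generalizing x with
  | zero => rfl
  | succ m ih =>
    rw [Function.iterate_succ_apply', pow_succ', Module.End.mul_apply, LinearMap.sub_apply]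
    show dl^[m] (fun x => F (N - x) x) (x + 1) - dl^[m] (fun x => F (N - x) x) x = _
    rw [ih (x + 1) (by omega), ih x (by omega)]
    show _ = D2 (((D2 - D1) ^ m) F) (N - (m + 1) - x) x -
      D1 (((D2 - D1) ^ m) F) (N - (m + 1) - x) x
    rw [D1_apply, D2_apply]
    have e1 : N - m - (x + 1) = N - (m + 1) - x := by omega
    have e2 : N - m - x = N - (m + 1) - x + 1 := by omega
    rw [e1, e2]
    ring

theorem D_van {r : ℕ} {F : ℕ → ℕ → ℤ} (h1 : (D1 ^ r) F = 0) (h2 : (D2 ^ r) F = 0) :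
    ((D2 - D1) ^ (2 * r)) F = 0 := by
  have hc : Commute D2 (-D1) := D_comm.neg_right
  have k1 : ∀ s, r ≤ s → (D1 ^ s) F = 0 := by
    intro s hs
    obtain ⟨t, rfl⟩ := Nat.exists_eq_add_of_le hs
    rw [add_comm, pow_add, Module.End.mul_apply, h1, map_zero]
  have k2 : ∀ s, r ≤ s → (D2 ^ s) F = 0 := by
    intro s hs
    obtain ⟨t, rfl⟩ := Nat.exists_eq_add_of_le hs
    rw [add_comm, pow_add, Module.End.mul_apply, h2, map_zero]
  rw [sub_eq_add_neg, hc.add_pow, LinearMap.sum_apply]
  refine Finset.sum_eq_zero fun m hm => ?_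
  have hm' : m ≤ 2 * r := by
    have := Finset.mem_range.1 hm
    omega
  rw [Module.End.mul_apply, Module.End.natCast_apply, map_nsmul, Module.End.mul_apply]
  rcases le_or_gt r m with h | h
  · have e : (D2 ^ m) (((-D1) ^ (2 * r - m)) F) = ((-D1) ^ (2 * r - m)) ((D2 ^ m) F) := by
      rw [← Module.End.mul_apply, ← Module.End.mul_apply, (hc.pow_pow m (2 * r - m)).eq]
    rw [e, k2 m h, map_zero, smul_zero]
  · rw [neg_pow, Module.End.mul_apply, k1 _ (by omega), map_zero, map_zero, smul_zero]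

theorem pf_IDX : T_IDX := by
  intro p n₀ r Q H hp hQ hH
  refine ⟨2 * n₀ + 2 * r + p + 5, fun J hJ => ?_⟩
  obtain ⟨F, hF⟩ : ∃ F : ℕ → ℕ → ℤ, F = fun j k => Q (n₀ + j) (n₀ + k) := ⟨_, rfl⟩
  obtain ⟨N, hN⟩ : ∃ N : ℕ, N = J - 1 - 2 * n₀ := ⟨_, rfl⟩
  have h1 : (D1 ^ r) F = 0 := by
    funext j k
    rw [D1_pow, dl_sum]
    have h := (hQ (n₀ + j) (n₀ + k) (by omega) (by omega)).1
    have h2 : ∑ i ∈ range (r + 1), (-1 : ℤ) ^ i * (r.choose i : ℤ) * F (j + i) k =
        ∑ i ∈ range (r + 1), (-1 : ℤ) ^ i * (r.choose i : ℤ) * Q (n₀ + j + i) (n₀ + k) := by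
      rw [hF]
      refine Finset.sum_congr rfl fun i _ => ?_
      rw [add_assoc]
    rw [h2, h, mul_zero]
    rfl
  have h2 : (D2 ^ r) F = 0 := by
    funext j k
    rw [D2_pow, dl_sum]
    have h := (hQ (n₀ + j) (n₀ + k) (by omega) (by omega)).2
    have h2 : ∑ i ∈ range (r + 1), (-1 : ℤ) ^ i * (r.choose i : ℤ) * F j (k + i) =
        ∑ i ∈ range (r + 1), (-1 : ℤ) ^ i * (r.choose i : ℤ) * Q (n₀ + j) (n₀ + k + i) := by
      rw [hF]
      refine Finset.sum_congr rfl fun i _ => ?_
      rw [add_assoc]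
    rw [h2, h, mul_zero]
    rfl
  have h3 := D_van h1 h2
  obtain ⟨q, hq⟩ : ∃ q : ℕ → ℤ, q = fun x => F (N - x) x := ⟨_, rfl⟩
  have hsum : ∀ x, x + p ≤ N + 1 → ∑ i ∈ range p, q (x + i) = H J := by
    intro x hx
    rw [← hH J (n₀ + x) (by omega), hq, hF]
    refine Finset.sum_congr rfl fun i hi => ?_
    have hi' := Finset.mem_range.1 hi
    have e1 : n₀ + (N - (x + i)) = J - 1 - (n₀ + x + i) := by omega
    have e2 : n₀ + (x + i) = n₀ + x + i := by omega
    show Q (n₀ + (N - (x + i))) (n₀ + (x + i)) = _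
    rw [e1, e2]
  have hper : ∀ x, x + p ≤ N → q (x + p) = q x := by
    intro x hx
    have e1 := hsum x (by omega)
    have e2 := hsum (x + 1) (by omega)
    have e3 : ∑ i ∈ range (p + 1), q (x + i) = (∑ i ∈ range p, q (x + i)) + q (x + p) :=
      Finset.sum_range_succ _ _
    have e4 : ∑ i ∈ range (p + 1), q (x + i) = (∑ i ∈ range p, q (x + (i + 1))) + q (x + 0) :=
      Finset.sum_range_succ' _ _
    have e5 : ∑ i ∈ range p, q (x + (i + 1)) = ∑ i ∈ range p, q (x + 1 + i) := by
      refine Finset.sum_congr rfl fun i _ => ?_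
      congr 1
      omega
    rw [add_zero] at e4
    linarith
  have hconst := dl_const p hp (2 * r) q N (by omega) (fun x hx => by
    rw [hq, D_diag (2 * r) N F x hx, h3]
    rfl) hper
  have e1 := hsum 0 (by omega)
  have e2 : ∑ i ∈ range p, q (0 + i) = ∑ _i ∈ range p, q 0 := by
    refine Finset.sum_congr rfl fun i hi => ?_
    have hi' := Finset.mem_range.1 hi
    rw [zero_add]
    exact hconst i (by omega)
  rw [← e1, e2, Finset.sum_const, Finset.card_range, nsmul_eq_mul]
  exact dvd_mul_right _ _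

end Pool.Agent.H47.IX
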