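import Pool.Agent.H15.IX.TC

/-!
Module NZR: algebraic extensions of the field of Laurent series.
-/

set_option autoImplicit false

open Finset Pool.Agent.H15.IX

namespace Pool.Agent.H47.IX

universe u

section

variable {k Ω : Type u} [Field k] [IsAlgClosed k] [CharZero k] [Field Ω]
  [Algebra (LaurentSeries k) Ω]

theorem nzr_t_ne :
    (algebraMap (LaurentSeries k) Ω (HahnSeries.single 1 1)) ≠ 0 := by
  rw [Ne, map_eq_zero]
  exact HahnSeries.single_ne_zero one_ne_zero

/-- the root of `t` in a finite extension -/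
theorem nzr_root (hPUI : T_PUI.{u}) (L : IntermediateField (LaurentSeries k) Ω)
    [FiniteDimensional (LaurentSeries k) L] :
    ∃ e : L ≃+* LaurentSeries k,
      ((e.symm (HahnSeries.single 1 1) : L) : Ω) ^ Module.finrank (LaurentSeries k) L =
        algebraMap (LaurentSeries k) Ω (HahnSeries.single 1 1) ∧
      ∀ b : PowerSeries k, ∃ c : ℕ → PowerSeries k, ((e.symm (b : LaurentSeries k) : L) : Ω) =
        ∑ i ∈ range (Module.finrank (LaurentSeries k) L),
          ((e.symm (HahnSeries.single 1 1) : L) : Ω) ^ i *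
            algebraMap (LaurentSeries k) Ω (c i : LaurentSeries k) := by
  obtain ⟨e, h1, h2⟩ := hPUI k L
  refine ⟨e, ?_, ?_⟩
  · have h3 : algebraMap (LaurentSeries k) L (HahnSeries.single 1 1) =
        (e.symm (HahnSeries.single 1 1)) ^ Module.finrank (LaurentSeries k) L := by
      apply e.injective
      rw [h1, map_pow, RingEquiv.apply_symm_apply]
    have h4 := congrArg (fun z : L => (z : Ω)) h3
    simp only [IntermediateField.coe_pow] at h4
    rw [← h4]
    rfl
  · intro b
    obtain ⟨c, hc⟩ := h2 b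
    refine ⟨c, ?_⟩
    have h4 := congrArg L.val hc
    rw [map_sum] at h4
    simp only [map_mul, map_pow, AlgHom.commutes] at h4
    exact h4

theorem nzr_second (hPUI : T_PUI.{u}) (O : ValuationSubring Ω) (p : ℕ) (N : Subfield Ω)
    (hG : Gd O p (algebraMap (LaurentSeries k) Ω (HahnSeries.single 1 1)) N)
    (L : IntermediateField (LaurentSeries k) Ω) [FiniteDimensional (LaurentSeries k) L]
    (hL : L.toSubfield ≤ N) : ¬ p ∣ Module.finrank (LaurentSeries k) L := by
  rintro ⟨m', hm'⟩
  obtain ⟨e, h1, -⟩ := nzr_root hPUI L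
  obtain ⟨s, hs⟩ : ∃ s : L, s = e.symm (HahnSeries.single 1 1) := ⟨_, rfl⟩
  rw [← hs] at h1
  have hsN : (s : Ω) ∈ N := hL s.2
  have ht := nzr_t_ne (k := k) (Ω := Ω)
  have hs0 : (s : Ω) ≠ 0 := by
    intro h
    rw [h, zero_pow Module.finrank_pos.ne'] at h1
    exact ht h1.symm
  refine hG ((s : Ω) ^ m')⁻¹ (N.inv_mem (N.pow_mem hsN m')) ?_
  rw [← h1, hm', mul_comm p m', pow_mul, inv_pow, mul_inv_cancel₀ (pow_ne_zero _
    (pow_ne_zero _ hs0)), map_one]

theorem pf_NZR (hPUI : T_PUI.{u}) : T_NZR.{u} := by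
  intro k Ω _ _ _ _ _ O p N hp hO ht hN hint hG
  refine ⟨fun x hx hx0 => ?_, fun L _ hL => nzr_second hPUI O p N hG L hL⟩
  obtain ⟨L, hLdef⟩ : ∃ L : IntermediateField (LaurentSeries k) Ω,
      L = IntermediateField.adjoin (LaurentSeries k) {x} := ⟨_, rfl⟩
  have hxL : x ∈ L := by
    rw [hLdef]
    exact IntermediateField.mem_adjoin_simple_self _ x
  have hfin : FiniteDimensional (LaurentSeries k) L := by
    rw [hLdef]
    exact IntermediateField.adjoin.finiteDimensional (hint x hx)
  have hLN : L.toSubfield ≤ N := by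
    have h1 : L ≤ N.toIntermediateField hN := by
      rw [hLdef, IntermediateField.adjoin_le_iff, Set.singleton_subset_iff]
      exact hx
    exact h1
  have hpm := nzr_second hPUI O p N hG L hLN
  obtain ⟨e, h1, h2⟩ := nzr_root hPUI L
  obtain ⟨m, hm⟩ : ∃ m : ℕ, m = Module.finrank (LaurentSeries k) L := ⟨_, rfl⟩
  have hm1 : 1 ≤ m := by
    rw [hm]
    exact Module.finrank_pos
  rw [← hm] at hpm h1 h2
  obtain ⟨s, hs⟩ : ∃ s : L, s = e.symm (HahnSeries.single 1 1) := ⟨_, rfl⟩
  rw [← hs] at h1 h2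
  have hvs : O.valuation (s : Ω) ^ m < 1 := by
    rw [← map_pow, h1]
    exact ht
  have hvs1 : O.valuation (s : Ω) ≤ 1 := by
    by_contra hc
    rw [not_le] at hc
    exact absurd hvs (not_lt.2 (one_le_pow₀ hc.le))
  have hsO : (s : Ω) ∈ O := (ValuationSubring.valuation_le_one_iff _ _).1 hvs1
  have hbO : ∀ b : PowerSeries k, ((e.symm (b : LaurentSeries k) : L) : Ω) ∈ O := by
    intro b
    obtain ⟨c, hc⟩ := h2 b
    rw [hc]
    exact sum_mem fun i _ => mul_mem (pow_mem hsO i) (hO _)
  obtain ⟨z, hz⟩ : ∃ z : LaurentSeries k, z = e ⟨x, hxL⟩ := ⟨_, rfl⟩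
  have hz0 : z ≠ 0 := by
    rw [hz, Ne, map_eq_zero_iff e e.injective]
    intro h
    exact hx0 (congrArg (fun w : L => (w : Ω)) h)
  obtain ⟨b, hb⟩ : ∃ b : PowerSeries k, b = z.powerSeriesPart := ⟨_, rfl⟩
  have hzb : z = (HahnSeries.single 1 1 : LaurentSeries k) ^ z.order * (b : LaurentSeries k) := by
    rw [hb, ← RatFunc.single_zpow, LaurentSeries.single_order_mul_powerSeriesPart]
  have hb0 : PowerSeries.constantCoeff b ≠ 0 := by
    rw [← PowerSeries.coeff_zero_eq_constantCoeff_apply, hb, LaurentSeries.powerSeriesPart_coeff]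
    simpa [HahnSeries.coeff_order_eq_zero] using hz0
  have hbb : ((b : LaurentSeries k)) * ((b⁻¹ : PowerSeries k) : LaurentSeries k) = 1 := by
    rw [← PowerSeries.coe_mul, PowerSeries.mul_inv_cancel b hb0, PowerSeries.coe_one]
  have hv1 : O.valuation ((e.symm (b : LaurentSeries k) : L) : Ω) = 1 := by
    have e1 := (ValuationSubring.valuation_le_one_iff O _).2 (hbO b)
    have e2 := (ValuationSubring.valuation_le_one_iff O _).2 (hbO b⁻¹)
    have e3 : ((e.symm (b : LaurentSeries k) : L) : Ω) *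
        ((e.symm ((b⁻¹ : PowerSeries k) : LaurentSeries k) : L) : Ω) = 1 := by
      rw [← IntermediateField.coe_mul, ← map_mul, hbb, map_one, IntermediateField.coe_one]
    have e4 := congrArg O.valuation e3
    rw [map_mul, map_one] at e4
    refine le_antisymm e1 ?_
    rw [← e4]
    calc O.valuation ((e.symm (b : LaurentSeries k) : L) : Ω) *
        O.valuation ((e.symm ((b⁻¹ : PowerSeries k) : LaurentSeries k) : L) : Ω) ≤
        O.valuation ((e.symm (b : LaurentSeries k) : L) : Ω) * 1 := mul_le_mul' le_rfl e2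
      _ = _ := mul_one _
  have hxs : x = (s : Ω) ^ z.order * ((e.symm (b : LaurentSeries k) : L) : Ω) := by
    have e1 : (⟨x, hxL⟩ : L) = s ^ z.order * e.symm (b : LaurentSeries k) := by
      apply e.injective
      rw [← hz, map_mul, RingEquiv.apply_symm_apply, map_zpow₀, hs, RingEquiv.apply_symm_apply]
      exact hzb
    have e2 := congrArg L.val e1
    rw [map_mul, map_zpow₀] at e2
    exact e2
  refine ⟨m, z.order, hm1, hpm, ?_⟩
  rw [hxs, map_mul, hv1, mul_one, ← h1, map_pow, map_zpow₀, ← zpow_natCast, ← zpow_natCast,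
    ← zpow_mul, ← zpow_mul, mul_comm]

end

end Pool.Agent.H47.IX
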