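import Pool.Agent.H15.IX.TB

/-!
Module VCR: valuative criterion of integral dependence.
-/

set_option autoImplicit false

open Finset Pool.Agent.H15.IX

namespace Pool.Agent.H47.IX

universe u

section

variable {A E : Type u} [CommRing A] [Field E] [Algebra A E]

theorem vcr_one_le (N : Submodule A E) (r s : ℕ) : (1 ⊔ N) ^ r ≤ (1 ⊔ N) ^ (r + s) := by
  rw [pow_add]
  calc (1 ⊔ N) ^ r = (1 ⊔ N) ^ r * 1 := (mul_one _).symm
    _ ≤ (1 ⊔ N) ^ r * (1 ⊔ N) ^ s := by
      refine mul_le_mul' le_rfl ?_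
      calc (1 : Submodule A E) = 1 ^ s := (one_pow _).symm
        _ ≤ (1 ⊔ N) ^ s := pow_le_pow_left' le_sup_left s

theorem vcr_mono {N : Submodule A E} {r s : ℕ} (h : r ≤ s) : (1 ⊔ N) ^ r ≤ (1 ⊔ N) ^ s := by
  obtain ⟨t, rfl⟩ := Nat.exists_eq_add_of_le h
  exact vcr_one_le N r t

/-- the elements of the algebra generated by `N` -/
theorem vcr_adjoin (N : Submodule A E) {b : E} (hb : b ∈ Algebra.adjoin A (N : Set E)) :
    ∃ r : ℕ, b ∈ (1 ⊔ N) ^ r := by
  induction hb using Algebra.adjoin_induction with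
  | mem x hx =>
    refine ⟨1, ?_⟩
    rw [pow_one]
    exact (le_sup_right : N ≤ 1 ⊔ N) hx
  | algebraMap a =>
    refine ⟨0, ?_⟩
    rw [pow_zero]
    exact Submodule.algebraMap_mem a
  | add x y _ _ hx hy =>
    obtain ⟨r, hr⟩ := hx
    obtain ⟨s, hs⟩ := hy
    exact ⟨max r s, Submodule.add_mem _ (vcr_mono (le_max_left _ _) hr)
      (vcr_mono (le_max_right _ _) hs)⟩
  | mul x y _ _ hx hy =>
    obtain ⟨r, hr⟩ := hx
    obtain ⟨s, hs⟩ := hy
    refine ⟨r + s, ?_⟩
    rw [pow_add]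
    exact Submodule.mul_mem_mul hr hs

/-- the unit is an integral combination -/
theorem vcr_unit (M : Submodule A E) (x : E) (hx : x ≠ 0)
    (h : ∀ O : ValuationSubring E, Ov A O → ∃ y ∈ M, ∃ c ∈ O, x = c * y) :
    ∃ r : ℕ, (1 : E) ∈ (Submodule.span A {x⁻¹} * M) *
      (1 ⊔ (Submodule.span A {x⁻¹} * M)) ^ r := by
  obtain ⟨N, hN⟩ : ∃ N : Submodule A E, N = Submodule.span A {x⁻¹} * M := ⟨_, rfl⟩
  rw [← hN]
  obtain ⟨B, hB⟩ : ∃ B : Subring E, B = (Algebra.adjoin A (N : Set E)).toSubring := ⟨_, rfl⟩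
  have hBm : ∀ b : E, b ∈ B ↔ b ∈ Algebra.adjoin A (N : Set E) := by
    intro b
    rw [hB]
    exact Iff.rfl
  obtain ⟨I, hI⟩ : ∃ I : Ideal B, I = Ideal.span {b : B | (b : E) ∈ N} := ⟨_, rfl⟩
  have htop : I = ⊤ := by
    by_contra hne
    obtain ⟨O, hO1, hO2⟩ := Ideal.image_subset_nonunits_valuationSubring I hne
    have hOv : Ov A O := by
      intro a
      apply hO1
      rw [hBm]
      exact Subalgebra.algebraMap_mem _ a
    obtain ⟨y, hy, c, hc, hxy⟩ := h O hOv
    have hyN : x⁻¹ * y ∈ N := by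
      rw [hN]
      exact Submodule.mul_mem_mul (Submodule.mem_span_singleton_self _) hy
    have hyB : x⁻¹ * y ∈ B := by
      rw [hBm]
      exact Algebra.subset_adjoin hyN
    have h2 : x⁻¹ * y ∈ O.nonunits := by
      apply hO2
      refine ⟨⟨x⁻¹ * y, hyB⟩, ?_, rfl⟩
      rw [hI]
      exact Ideal.subset_span hyN
    have h3 : O.valuation (x⁻¹ * y) < 1 := (ValuationSubring.mem_nonunits_iff _).1 h2
    have h4 : O.valuation c ≤ 1 := (ValuationSubring.valuation_le_one_iff _ _).2 hc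
    have h5 : c * (x⁻¹ * y) = 1 := by
      have h6 : c * (x⁻¹ * y) = x⁻¹ * (c * y) := by ring
      rw [h6, ← hxy, inv_mul_cancel₀ hx]
    have h6 : O.valuation c * O.valuation (x⁻¹ * y) = 1 := by
      rw [← map_mul, h5, map_one]
    have h7 : O.valuation c * O.valuation (x⁻¹ * y) < 1 := by
      calc O.valuation c * O.valuation (x⁻¹ * y) ≤ 1 * O.valuation (x⁻¹ * y) :=
            mul_le_mul' h4 le_rfl
        _ < 1 := by rwa [one_mul]
    exact absurd h6 h7.ne
  have h1 : (1 : B) ∈ I := by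
    rw [htop]
    exact Submodule.mem_top
  have key : ∀ b : B, b ∈ I → ∃ r : ℕ, (b : E) ∈ N * (1 ⊔ N) ^ r := by
    intro b hb
    rw [hI] at hb
    induction hb using Submodule.span_induction with
    | mem z hz =>
      refine ⟨0, ?_⟩
      rw [pow_zero, mul_one]
      exact hz
    | zero =>
      refine ⟨0, ?_⟩
      exact Submodule.zero_mem _
    | add z w _ _ hz hw =>
      obtain ⟨r, hr⟩ := hz
      obtain ⟨s, hs⟩ := hw
      refine ⟨max r s, ?_⟩
      rw [Subring.coe_add]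
      exact Submodule.add_mem _ (mul_le_mul' le_rfl (vcr_mono (le_max_left _ _)) hr)
        (mul_le_mul' le_rfl (vcr_mono (le_max_right _ _)) hs)
    | smul a z _ hz =>
      obtain ⟨r, hr⟩ := hz
      obtain ⟨s, hs⟩ := vcr_adjoin N ((hBm _).1 a.2)
      refine ⟨r + s, ?_⟩
      have h8 : (z : E) * (a : E) ∈ N * (1 ⊔ N) ^ r * (1 ⊔ N) ^ s := Submodule.mul_mem_mul hr hs
      rw [mul_assoc, ← pow_add] at h8
      rw [smul_eq_mul, Subring.coe_mul, mul_comm (a : E) (z : E)]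
      exact h8
  obtain ⟨r, hr⟩ := key 1 h1
  exact ⟨r, by simpa using hr⟩

theorem vcr_pow (M X : Submodule A E) (n : ℕ) :
    (M ⊔ X) ^ (n + 1) ≤ M * (M ⊔ X) ^ n ⊔ X ^ (n + 1) := by
  induction n with
  | zero =>
    simp
  | succ n ih =>
    calc (M ⊔ X) ^ (n + 1 + 1) = (M ⊔ X) * (M ⊔ X) ^ (n + 1) := pow_succ' _ _
      _ = M * (M ⊔ X) ^ (n + 1) ⊔ X * (M ⊔ X) ^ (n + 1) := Submodule.sup_mul _ _ _
      _ ≤ M * (M ⊔ X) ^ (n + 1) ⊔ X * (M * (M ⊔ X) ^ n ⊔ X ^ (n + 1)) :=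
        sup_le_sup le_rfl (mul_le_mul' le_rfl ih)
      _ = M * (M ⊔ X) ^ (n + 1) ⊔ (X * (M * (M ⊔ X) ^ n) ⊔ X * X ^ (n + 1)) := by
        rw [Submodule.mul_sup]
      _ ≤ M * (M ⊔ X) ^ (n + 1) ⊔ X ^ (n + 1 + 1) := by
        refine sup_le le_sup_left (sup_le ?_ ?_)
        · refine le_trans ?_ le_sup_left
          rw [mul_left_comm, pow_succ' (M ⊔ X) n]
          exact mul_le_mul' le_rfl (mul_le_mul' le_sup_right le_rfl)
        · rw [pow_succ' X (n + 1)]
          exact le_sup_right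

theorem vcr_step (M : Submodule A E) (x : E)
    (h : ∀ O : ValuationSubring E, Ov A O → ∃ y ∈ M, ∃ c ∈ O, x = c * y) :
    ∃ r : ℕ, (M ⊔ Submodule.span A {x}) ^ (r + 1) = M * (M ⊔ Submodule.span A {x}) ^ r := by
  by_cases hx : x = 0
  · refine ⟨0, ?_⟩
    rw [hx, Submodule.span_zero_singleton, sup_bot_eq, zero_add, pow_one, pow_zero, mul_one]
  obtain ⟨r, hr⟩ := vcr_unit M x hx h
  refine ⟨r, le_antisymm ?_ ?_⟩
  · refine (vcr_pow M _ r).trans (sup_le le_rfl ?_)
    rw [Submodule.span_pow, Set.singleton_pow, Submodule.span_le, Set.singleton_subset_iff]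
    have e1 : Submodule.span A {x} * Submodule.span A {x⁻¹} = (1 : Submodule A E) := by
      rw [Submodule.span_mul_span, Set.singleton_mul_singleton, mul_inv_cancel₀ hx,
        Submodule.one_eq_span]
    have e2 : Submodule.span A {x} * (Submodule.span A {x⁻¹} * M) = M := by
      rw [← mul_assoc, e1, one_mul]
    have e3 : Submodule.span A {x} * (1 ⊔ Submodule.span A {x⁻¹} * M) =
        M ⊔ Submodule.span A {x} := by
      rw [Submodule.mul_sup, e2, mul_one, sup_comm]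
    have e4 : Submodule.span A {x} ^ (r + 1) * ((Submodule.span A {x⁻¹} * M) *
        (1 ⊔ (Submodule.span A {x⁻¹} * M)) ^ r) = M * (M ⊔ Submodule.span A {x}) ^ r := by
      rw [pow_succ', mul_mul_mul_comm, e2, ← mul_pow, e3]
    have e5 : x ^ (r + 1) * 1 ∈ M * (M ⊔ Submodule.span A {x}) ^ r := by
      rw [← e4]
      refine Submodule.mul_mem_mul ?_ hr
      rw [Submodule.span_pow, Set.singleton_pow]
      exact Submodule.mem_span_singleton_self _
    rw [mul_one] at e5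
    exact e5
  · rw [pow_succ']
    exact mul_le_mul' le_sup_left le_rfl

theorem vcr_all (M : Submodule A E) (s : Finset E)
    (h : ∀ x ∈ s, ∀ O : ValuationSubring E, Ov A O → ∃ y ∈ M, ∃ c ∈ O, x = c * y) :
    ∃ k : ℕ, (M ⊔ Submodule.span A (s : Set E)) ^ (k + 1) =
      M * (M ⊔ Submodule.span A (s : Set E)) ^ k := by
  classical
  induction s using Finset.induction_on with
  | empty =>
    refine ⟨0, ?_⟩
    rw [Finset.coe_empty, Submodule.span_empty, sup_bot_eq, zero_add, pow_one, pow_zero, mul_one]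
  | insert x s hx ih =>
    obtain ⟨k, hk⟩ := ih fun z hz => h z (Finset.mem_insert_of_mem hz)
    obtain ⟨N, hN⟩ : ∃ N : Submodule A E, N = M ⊔ Submodule.span A (s : Set E) := ⟨_, rfl⟩
    rw [← hN] at hk
    have e1 : M ⊔ Submodule.span A ((insert x s : Finset E) : Set E) =
        N ⊔ Submodule.span A {x} := by
      rw [Finset.coe_insert, Submodule.span_insert, hN, sup_assoc]
      congr 1
      exact sup_comm _ _
    rw [e1]
    obtain ⟨b, hb⟩ := vcr_step N x fun O hO => by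
      obtain ⟨y, hy, c, hc, e⟩ := h x (Finset.mem_insert_self _ _) O hO
      refine ⟨y, ?_, c, hc, e⟩
      rw [hN]
      exact (le_sup_left : M ≤ _) hy
    obtain ⟨N', hN'⟩ : ∃ N' : Submodule A E, N' = N ⊔ Submodule.span A {x} := ⟨_, rfl⟩
    rw [← hN'] at hb ⊢
    have e2 : ∀ j : ℕ, N' ^ (b + j) = N ^ j * N' ^ b := by
      intro j
      induction j with
      | zero => rw [add_zero, pow_zero, one_mul]
      | succ j ihj =>
        have e3 : b + (j + 1) = j + (b + 1) := by omega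
        rw [e3, pow_add, hb, pow_succ, mul_left_comm, ← pow_add, add_comm j b, ihj]
        rw [mul_left_comm, ← mul_assoc, mul_comm (N ^ j) N]
    refine ⟨b + k, ?_⟩
    rw [add_assoc, e2 (k + 1), hk, e2 k, mul_assoc]

end

theorem pf_VCR : T_VCR.{u} := by
  intro A E _ _ _ M N hMN hfg h
  obtain ⟨s, hs⟩ := hfg
  obtain ⟨k, hk⟩ := vcr_all M s fun x hx O hO => h O hO x (by
    rw [← hs]
    exact Submodule.subset_span hx)
  rw [hs, sup_eq_right.2 hMN] at hk
  exact ⟨k, hk⟩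

end Pool.Agent.H47.IX
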