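import Pool.Agent.H39.IX.Targets2

set_option autoImplicit false

open scoped InnerProductSpace Topology
open Filter Finset Pool.Agent.H80.G2 Pool.Agent.H39.IX

namespace Pool.Agent.H47.IX

section

variable {H : Type} [NormedAddCommGroup H] [InnerProductSpace ℂ H] [CompleteSpace H]

theorem tr_star_vec (s : H →L[ℂ] H) (ζ : ℕ → H) (x : H →L[ℂ] H) :
    tr (fun n => (star s) (ζ n)) x = tr ζ (s * x * star s) := by
  unfold tr
  congr 1
  funext n
  change _ = ⟪ζ n, s (x ((star s) (ζ n)))⟫_ℂ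
  rw [ContinuousLinearMap.star_eq_adjoint, ContinuousLinearMap.adjoint_inner_left]

theorem norm_star_vec {s : H →L[ℂ] H} (hs : UH s) (v : H) : ‖(star s) v‖ = ‖v‖ := by
  have h1 : ⟪(star s) v, (star s) v⟫_ℂ = ⟪v, v⟫_ℂ := by
    have h2 : s ((star s) v) = v := by
      change (s * star s) v = v
      rw [hs.2]
      rfl
    conv_lhs => rw [ContinuousLinearMap.star_eq_adjoint,
      ContinuousLinearMap.adjoint_inner_left, ← ContinuousLinearMap.star_eq_adjoint]
    rw [h2]
  have h3 : ‖(star s) v‖ ^ 2 = ‖v‖ ^ 2 := by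
    rw [← @inner_self_eq_norm_sq ℂ, ← @inner_self_eq_norm_sq ℂ, h1]
  exact (sq_eq_sq₀ (norm_nonneg _) (norm_nonneg _)).1 h3

/-- conjugation is multiplicative -/
theorem cj_mul {s : H →L[ℂ] H} (hs : UH s) (x y : H →L[ℂ] H) :
    s * (x * y) * star s = (s * x * star s) * (s * y * star s) := by
  have h : star s * (s * y * star s) = y * star s := by
    rw [mul_assoc s, ← mul_assoc (star s), hs.1, one_mul]
  rw [mul_assoc (s * x), h, ← mul_assoc, ← mul_assoc]

theorem cj_star (s x : H →L[ℂ] H) : star (s * x * star s) = s * star x * star s := by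
  rw [star_mul, star_star, star_mul, ← mul_assoc]

theorem cj_back {s : H →L[ℂ] H} (hs : UH s) (x : H →L[ℂ] H) :
    star s * (s * x * star s) * s = x := by
  rw [mul_assoc s, ← mul_assoc (star s), hs.1, one_mul, mul_assoc, hs.1, mul_one]

theorem cj_forth {s : H →L[ℂ] H} (hs : UH s) (x : H →L[ℂ] H) :
    s * (star s * x * s) * star s = x := by
  rw [mul_assoc (star s), ← mul_assoc s, hs.2, one_mul, mul_assoc, hs.2, mul_one]

theorem UH.star {s : H →L[ℂ] H} (hs : UH s) : UH (Star.star s) :=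
  ⟨by rw [star_star]; exact hs.2, by rw [star_star]; exact hs.1⟩

theorem isTr_cj {N Q : VonNeumannAlgebra H} {s : H →L[ℂ] H} (hs : UH s)
    (hQ : ∀ x, x ∈ Q ↔ s * x * star s ∈ N) (ζ : ℕ → H) (h : IsTr N ζ) :
    IsTr Q fun n => (star s) (ζ n) where
  one := by
    have e : (fun n => ‖(star s) (ζ n)‖ ^ 2) = fun n => ‖ζ n‖ ^ 2 := by
      funext n
      rw [norm_star_vec hs]
    rw [e]
    exact h.one
  comm x hx y hy := by
    rw [tr_star_vec, tr_star_vec, cj_mul hs, cj_mul hs]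
    exact h.comm _ ((hQ x).1 hx) _ ((hQ y).1 hy)
  faith x hx h0 := by
    rw [tr_star_vec, cj_mul hs, ← cj_star] at h0
    have h1 := h.faith _ ((hQ x).1 hx) h0
    rw [← cj_back hs x, h1, mul_zero, zero_mul]

end

/-- CNT -/
theorem pf_CNT (hCNV : T_CNV) : T_CNT := by
  intro H _ _ _ N Q s hs hQ
  refine ⟨isTr_cj hs hQ, ?_⟩
  rintro ⟨P1, u1, hfac, hsub, huni, hnor, hort, hdec⟩
  obtain ⟨P2, hP2⟩ := hCNV H P1 (star s) (UH.star hs)
  simp only [star_star] at hP2
  have hPs : ∀ z ∈ P1, s * z * star s ∈ P2 := fun z hz => by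
    rw [hP2, cj_back hs]
    exact hz
  have hcm : ∀ x y : H →L[ℂ] H,
      star s * (x * y) * s = (star s * x * s) * (star s * y * s) := fun x y => by
    have := cj_mul (UH.star hs) x y
    rwa [star_star] at this
  refine ⟨P2, s * u1 * star s, ?_, ?_, ⟨(hQ u1).1 huni.1, ?_, ?_⟩, ?_, ?_, ?_⟩
  · intro x hx hxc
    obtain ⟨c, hc⟩ := hfac _ ((hP2 x).1 hx) fun z hz => by
      have h1 := hxc _ (hPs z hz)
      have h2 := hcm x (s * z * star s)
      have h3 := hcm (s * z * star s) x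
      rw [cj_back hs] at h2 h3
      rw [← h2, ← h3, h1]
    refine ⟨c, ?_⟩
    rw [← cj_forth hs x, hc, mul_smul_comm, mul_one, smul_mul_assoc, hs.2]
  · intro x hx
    have h1 := (hQ _).1 (hsub _ ((hP2 x).1 hx))
    rwa [cj_forth hs] at h1
  · rw [cj_star, ← cj_mul hs, huni.2.1, mul_one, hs.2]
  · rw [cj_star, ← cj_mul hs, huni.2.2, mul_one, hs.2]
  · intro x hx
    rw [hP2, cj_star, hcm, hcm, cj_back hs, cj_back hs]
    exact hnor _ ((hP2 x).1 hx)
  · intro ξ hξ x hx
    have h1 := hort _ (isTr_cj hs hQ ξ hξ) _ ((hP2 x).1 hx)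
    rw [tr_star_vec, cj_mul hs, cj_forth hs] at h1
    exact h1
  · intro x hx
    have h1 : star s * x * s ∈ Q := by
      rw [hQ, cj_forth hs]
      exact hx
    obtain ⟨y, hy, z, hz, e⟩ := hdec _ h1
    refine ⟨s * y * star s, hPs y hy, s * z * star s, hPs z hz, ?_⟩
    rw [← cj_mul hs, ← add_mul, ← mul_add, ← e, cj_forth hs]

end Pool.Agent.H47.IX
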