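import Pool.Agent.H39.IX.Targets2

set_option autoImplicit false

open scoped InnerProductSpace Topology
open Filter Finset Pool.Agent.H80.G2 Pool.Agent.H39.IX

namespace Pool.Agent.H47.IX

/-- QPN -/
theorem pf_QPN (hNPR : T_NPR) (hRCM : T_RCM) (hUNS : Pool.Agent.H80.G2.T_UNS) : T_QPN := by
  intro H _ _ _ M N P A Q w G ξ ζ hS hQ
  have hVN : ∀ v, VN N P A G v → v ∈ Q := fun v hv => (hQ v).2 fun y hy => hy v hv
  refine ⟨hVN, fun x hx => mem_of_comm fun y hy => (hQ x).1 hx y fun v hv => hy v hv.1.1, ?_⟩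
  intro x hx hc
  obtain ⟨R, hR⟩ := hRCM H N G hS.grp
  obtain ⟨c, u, hu, -, e⟩ := hUNS H R x ((hR x).2 ⟨hx, hc⟩)
  rw [e]
  refine sum_mem fun i _ => smul_mem' Q (c i) (hVN (u i) ?_)
  have h1 := (hR (u i)).1 (hu i).1
  exact (hNPR H M N P A w G ξ ζ hS).2.2.2.1 (u i) ⟨h1.1, (hu i).2⟩ h1.2

end Pool.Agent.H47.IX
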