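import Pool.Agent.H39.IX.Targets2

set_option autoImplicit false

open scoped InnerProductSpace Topology
open Filter Finset Pool.Agent.H80.G2 Pool.Agent.H39.IX

namespace Pool.Agent.H47.IX

/-- SIT -/
theorem pf_SIT (hGEN : T_GEN) (hIDX : T_IDX) (hNPR : T_NPR) (hQPN : T_QPN) (hSQP : T_SQP)
    (hSPQ : T_SPQ) (hFCN : T_FCN) (hW2X : T_W2X) (hNW2 : T_NW2) (hORN : T_ORN)
    (hFIN : T_FIN) : T_SIT := by
  intro H _ _ _ M N P A w G ξ ζ hS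
  obtain ⟨Q, hQ⟩ := hGEN H {v | VN N P A G v} fun x hx =>
    (hNPR H M N P A w G ξ ζ hS).2.1.2.1 x hx
  have hPN : IsPN N P A Q G := hQ
  have hq := hSQP H M N P A Q w G ξ ζ hS hPN
  have hC : Cls P Q := ⟨hq, hSPQ H M N P A Q w G ξ ζ hS hPN hq⟩
  have hF : IsFac Q :=
    hFCN H P Q ξ (hIDX H M P w ξ hS.trM hS.idx).1 hS.idx.fac hC
  obtain ⟨s, w₂, hW⟩ := hW2X H M N P A Q w G ξ ζ hS hPN hC
  have h1 := hNW2 H M N P A Q w s w₂ G ξ ζ hS hPN hC hW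
  have h2 := hORN H M N P A Q w s w₂ G ξ ζ hS hPN hC hF hW h1
  exact ⟨Q, w₂, hF, (hQPN H M N P A Q w G ξ ζ hS hPN).2.1, hW.uw, h1, h2,
    hFIN H M N P A Q w s w₂ G ξ ζ hS hPN hC hW h1 (h2 ζ hS.trN)⟩

end Pool.Agent.H47.IX
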