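import Pool.Agent.H39.IX.Targets2

set_option autoImplicit false
set_option linter.unusedVariables false

open scoped InnerProductSpace Topology
open Filter Finset Pool.Agent.H80.G2 Pool.Agent.H39.IX

namespace Pool.Agent.H47.IX

/-- VEX -/
theorem pf_VEX (hNPR : T_NPR) (hINT : T_INT) : T_VEX := by
  intro H _ _ _ M N P A w G ξ ζ hS u hu
  obtain ⟨T, hT, -, hd⟩ := hS.nMN u (hS.idx.sub u hu.1.1) (norm_of_uni hu.1)
  have hAN : ∀ a ∈ A, a ∈ N := fun a ha =>
    mem_of_comm fun y hy => (hS.gen a).1 ha y fun g hg => hy g (hS.GN g hg)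
  have hGA : ∀ g, InG G g → g ∈ A := fun g hg => (hS.gen g).2 fun y hy => hy g hg
  have h1 : UH (1 : H →L[ℂ] H) := ⟨by rw [star_one, one_mul], by rw [star_one, one_mul]⟩
  have h2 : ∀ g : H →L[ℂ] H, InG G g → g = 1 * g * star (1 : H →L[ℂ] H) := fun g _ => by
    rw [star_one, one_mul, mul_one]
  have h3 : ∀ g : H →L[ℂ] H, InG G g → g ∈ N ∧ u * g * star u ∈ N ∧
      u * g = u * g * star u * u := fun g hg =>
    ⟨hS.GN g hg, hAN _ (hu.2.1 g (hGA g hg)), by rw [mul_assoc (u * g), hu.1.2.1, mul_one]⟩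
  have h4 : ‖T - u‖ ≤ 1 / 1000000 := by rw [norm_sub_rev]; exact hd
  obtain ⟨v, hv, -, hvg⟩ := hINT H N G hS.grp (fun g => g) (fun g => u * g * star u) 1 u T
    (1 / 1000000) h1 hu.1.2 h2 h3 hT h4 (by norm_num)
  have h5 : ∀ g, InG G g → v * g * star v = u * g * star u := fun g hg => by
    have h6 : v * g = u * g * star u * v := hvg g hg
    rw [h6, mul_assoc, hv.2.2, mul_one]
  exact ⟨v, ⟨hv, u, hu, h5⟩, h5⟩

end Pool.Agent.H47.IX
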